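import Mathlib
import Pool.Agent.H66.IntV

set_option autoImplicit false

open Polynomial TensorProduct

namespace Pool.Agent.Results.MP_f9f43c_al.ClosedNotEqual

variable (D K A : Type) [CommRing D] [Field K] [Ring A] [Algebra D K] [Algebra D A]

/-- the standing assumptions on `D`, `K`, `A`. -/
def Setting : Prop :=
  IsDomain D ∧ IsIntegrallyClosed D ∧ IsFractionRing D K ∧ Function.Injective (algebraMap D A) ∧
    Module.Finite D A ∧ ∀ (d : D) (a : A), d • a = 0 → d = 0 ∨ a = 0

/-- the copy of `A` inside `B = K ⊗ A`. -/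
def copyA : Set (K ⊗[D] A) := Set.range fun a : A => (1 : K) ⊗ₜ[D] a

/-- `Int_K(A)`. -/
def intK : Set K[X] := {f | ∀ a ∈ copyA D K A, aeval a f ∈ copyA D K A}

/-- `Int_K(A)` can be integrally closed although `A` is not the set of integral elements of
`K ⊗ A`. -/
theorem result :
    ∃ (D K A : Type) (_ : CommRing D) (_ : Field K) (_ : Ring A) (_ : Algebra D K)
      (_ : Algebra D A), Setting D K A ∧
      (∃ R : Subring K[X], (R : Set K[X]) = intK D K A ∧ IsIntegrallyClosed R) ∧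
      ∃ b : K ⊗[D] A, IsIntegral D b ∧ b ∉ copyA D K A := by
  refine ⟨Pool.Agent.H66.IntV.D, Pool.Agent.H66.IntV.K, Pool.Agent.H66.IntV.A,
    inferInstance, inferInstance, inferInstance, inferInstance, inferInstance,
    ⟨inferInstance, inferInstance, inferInstance, FaithfulSMul.algebraMap_injective _ _,
    inferInstance, Pool.Agent.H66.IntV.torsionFree⟩,
    ⟨_, ?_, Pool.Agent.H66.IntV.closed⟩, Pool.Agent.H66.IntV.b,
    Pool.Agent.H66.IntV.b_int, fun ⟨a, h⟩ => ?_⟩
  · ext f
    refine (Pool.Agent.H66.IntV.mem_iff f).trans ⟨?_, fun h a => ?_⟩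
    · rintro h _ ⟨a, rfl⟩
      obtain ⟨a', e⟩ := h a
      exact ⟨a', e.symm⟩
    · obtain ⟨a', e⟩ := h _ ⟨a, rfl⟩
      exact ⟨a', e.symm⟩
  · obtain ⟨α, h1, h2⟩ := Pool.Agent.H66.IntV.exists_root
    exact h2 a (by rw [← h] at h1; exact h1)

end Pool.Agent.Results.MP_f9f43c_al.ClosedNotEqual
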